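import Pool.Agent.MP_0502fb_pr.H21.Main

/-!
Negative answer to Q1 (dimension one): a centred stationary Gaussian process with continuous
paths whose spectral measure is absolutely continuous and singular at the origin, while the
centred conditioned process does not converge in law to the process.
-/

open MeasureTheory ProbabilityTheory Set Filter Topology

theorem Pool.Agent.Results.MP_0502fb_pr.Counterexample.result :
    ∃ (Ω : Type) (_ : MeasurableSpace Ω) (P : Measure Ω) (f : Ω → C(ℝ, ℝ)) (μ : Measure ℝ),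
      IsProbabilityMeasure P ∧
      @Measurable Ω C(ℝ, ℝ) _ (borel C(ℝ, ℝ)) f ∧
      IsGaussianProcess (fun (x : ℝ) (ω : Ω) => f ω x) P ∧
      (∀ x : ℝ, ∫ ω, f ω x ∂P = 0) ∧
      (∀ (I : Finset ℝ) (h : ℝ),
        P.map (fun (ω : Ω) (x : I) => f ω (x + h)) = P.map (fun (ω : Ω) (x : I) => f ω x)) ∧
      IsFiniteMeasure μ ∧
      (∀ x y : ℝ, ((∫ ω, f ω x * f ω y ∂P : ℝ) : ℂ)
        = ∫ l : ℝ, Complex.exp (Complex.I * l * (x - y)) ∂μ) ∧
      μ.AbsolutelyContinuous volume ∧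
      Tendsto (fun δ : ℝ => μ.real (Icc (-δ) δ) / δ) (𝓝[>] 0) atTop ∧
      (∀ T : ℝ, 0 < T → 0 < P {ω | ∀ x ∈ Icc (-T) T, 0 ≤ f ω x}) ∧
      ∃ m : ℝ → C(ℝ, ℝ),
        (∀ T : ℝ, 0 < T → ∀ x : ℝ,
          Integrable (fun ω => f ω x) (cond P {ω | ∀ x ∈ Icc (-T) T, 0 ≤ f ω x}) ∧
          m T x = ∫ ω, f ω x ∂(cond P {ω | ∀ x ∈ Icc (-T) T, 0 ≤ f ω x})) ∧
        ¬ ∀ Φ : BoundedContinuousFunction C(ℝ, ℝ) ℝ,
          Tendsto (fun T : ℝ => ∫ ω, Φ (f ω - m T) ∂(cond P {ω | ∀ x ∈ Icc (-T) T, 0 ≤ f ω x}))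
            atTop (𝓝 (∫ ω, Φ (f ω) ∂P)) := by
  obtain ⟨f, μ, h⟩ := Pool.Agent.MP_0502fb_pr.H21.main
  exact ⟨_, inferInstance, _, f, μ, inferInstance, h⟩
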