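import Pool.Agent.MP_0502fb_pr.H57.Main

/-!
Positive answer to Q1, in every dimension, for fields whose covariance is eventually positive and
regular at infinity (decaying no faster than a power below the dimension) and whose spectral
density is lower semicontinuous.
-/

open MeasureTheory ProbabilityTheory Set Filter Topology
open Pool.Agent.MP_0502fb_pr.H57

theorem Pool.Agent.Results.MP_0502fb_pr.RegularCovariance.result {d : ℕ} {Ω : Type}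
    [MeasurableSpace Ω] (P : Measure Ω) (f : Ω → C(Fin d → ℝ, ℝ)) (K : (Fin d → ℝ) → ℝ)
    (ρ : (Fin d → ℝ) → ENNReal) (α c R : ℝ)
    (hf : @Measurable Ω C(Fin d → ℝ, ℝ) _ (borel C(Fin d → ℝ, ℝ)) f)
    (hG : IsGaussianProcess (fun (x : Fin d → ℝ) (ω : Ω) => f ω x) P)
    (h0 : ∀ x, ∫ ω, f ω x ∂P = 0)
    (hK : ∀ x y, ∫ ω, f ω x * f ω y ∂P = K (x - y))
    (hρ : LowerSemicontinuous ρ) (hfin : ∫⁻ l, ρ l ≠ ⊤)
    (hμ : ∀ x, (K x : ℂ) =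
      ∫ l, Complex.exp (Complex.I * (∑ i, l i * x i : ℝ)) ∂(volume.withDensity ρ))
    (hα : 0 < α) (hd : α < d) (hc : 0 < c) (hR : 0 < R)
    (hpos : ∀ x, R ≤ ‖x‖ → 0 < K x)
    (hreg : ∀ x y, R ≤ ‖x‖ → R ≤ ‖y‖ → c * min 1 ((‖x‖ / ‖y‖) ^ α) * K x ≤ K y) :
    (∀ T : ℝ, 0 < P {ω | ∀ x, ‖x‖ ≤ T → 0 ≤ f ω x}) ∧
    ∃ m : ℝ → C(Fin d → ℝ, ℝ),
      (∀ (T : ℝ) (x : Fin d → ℝ),
        Integrable (fun ω => f ω x) (cond P {ω | ∀ x, ‖x‖ ≤ T → 0 ≤ f ω x}) ∧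
        m T x = ∫ ω, f ω x ∂(cond P {ω | ∀ x, ‖x‖ ≤ T → 0 ≤ f ω x})) ∧
      ∀ Φ : BoundedContinuousFunction C(Fin d → ℝ, ℝ) ℝ,
        Tendsto (fun T : ℝ => ∫ ω, Φ (f ω - m T) ∂(cond P {ω | ∀ x, ‖x‖ ≤ T → 0 ≤ f ω x}))
          atTop (𝓝 (∫ ω, Φ (f ω) ∂P)) := by
  have h := fld_of_process hf hG h0 hK
  have hn : ‖(fun _ => R : Fin d → ℝ)‖ = R := by
    have : Nonempty (Fin d) := ⟨⟨0, by exact_mod_cast hα.trans hd⟩⟩
    simp [pi_norm_const, abs_of_pos hR]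
  have sp : Sp K := sp_of_density hρ hfin hμ ⟨_, (hpos _ hn.ge).ne'⟩
  have reg : Reg K α c R := ⟨hα, hd, hc, hR, hpos, hreg, sp.bd⟩
  exact ⟨fun T => pos_iff_ne_zero.2 (ENNReal.toReal_pos_iff.1 (h.pos reg sp T)).1.ne',
    fun T => ⟨_, h.cont_cm sp.cont (AT f T)⟩,
    fun T x => ⟨integrable_cond (h.pos reg sp T) (h.gs.int (h.mem x)), (int_cond _ _).symm⟩,
    h.conv reg sp hf fun _ _ => rfl⟩
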